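import Pool.Agent.H919R4.AS.Final

/-!
Zero in the spectrum from cohomology in degrees at most two with coefficients in the permutation
module `ℤ[G/C]`, for amenable subgroups `C`. A closed aspherical manifold `M` with fundamental
group `G` is homotopy equivalent to a finite CW complex, and the cellular chain complex of the
universal cover of that complex is a finite free resolution `X` of the trivial `ℤ[G]`-module `ℤ`
(`Pool.Agent.H919R4.ZS.FinRes`). Its homology with coefficients in `C*_r(G)` is the homology of
`M` with these coefficients.
-/

set_option autoImplicit false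

namespace Pool.Agent.Results.MP_48737f_gt.AmenableCosets

open Pool.Agent.H919R4.ZS (FinRes toRed)
open Pool.Agent.H919R4.AS (cohomologyZ)
open Pool.Agent.H496R3.ZS (IsAmenable)

/-- Let `X` be a finite free resolution of `ℤ` over `ℤ[G]` and let `C` be an amenable subgroup of
infinite index in `G`. If `H^k(G; ℤ[G/C]) ≠ 0` for some `k ≤ 2`, then the homology of `X` with
coefficients in the reduced group `C*`-algebra `C*_r(G)` does not vanish in some degree
`i ≤ 2`. -/
theorem result (G : Type) [Group G] (X : FinRes G) (C : Subgroup G) (hC : IsAmenable C)
    (hG : Infinite (G ⧸ C)) (h : ∃ k ≤ 2, Nontrivial (cohomologyZ X (G ⧸ C) k)) :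
    ∃ i ≤ 2, Nontrivial (X.homology (toRed G) i) :=
  Pool.Agent.H919R4.AS.main X hC hG h

end Pool.Agent.Results.MP_48737f_gt.AmenableCosets
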