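import Pool.Agent.H496R3.ZS.Final

/-!
# Zero in the spectrum for groups with a non-trivial almost invariant set over amenable subgroups

`G` is a discrete group acting freely by homeomorphisms on a path connected space `X`; for the
question, `X` is the universal cover of a closed aspherical manifold `M` and `G = π_1(M)` acts by
deck transformations. `Homol (regHom G) X i` is the homology group `H_i` of the complex
`C_r^*(G) ⊗_{ℤG} C_*(X)`, where `C_*(X)` is the singular chain complex.
-/

namespace Pool.Agent.Results.MP_48737f_gt.AmenableSplitting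

open Pool.Agent.H496R3.ZS
open scoped Pointwise symmDiff

theorem result (G : Type) [Group G] (X : Type) [TopologicalSpace X] [PathConnectedSpace X]
    [MulAction G X] [ContinuousConstSMul G X] (hfree : ∀ (g : G) (x : X), g • x = x → g = 1) :
    -- a `G`-set with amenable stabilizers and a commensurated subset which is not transfixed
    (∀ (Z : Type) [MulAction G Z], (∀ z : Z, IsAmenable (MulAction.stabilizer G z)) →
      ∀ Y : Set Z, (∀ g : G, ((g • Y) ∆ Y).Finite) →
      (∀ Y' : Set Z, (∀ g : G, g • Y' = Y') → ¬ (Y ∆ Y').Finite) →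
      ∃ i ≤ 1, Nontrivial (Homol (regHom G) X i)) ∧
    -- an amenable subgroup `C` such that the pair `(G, C)` has at least two ends
    (∀ C : Subgroup G, IsAmenable C → ∀ Y : Set (G ⧸ C), Y.Infinite → Yᶜ.Infinite →
      (∀ g : G, ((g • Y) ∆ Y).Finite) → ∃ i ≤ 1, Nontrivial (Homol (regHom G) X i)) ∧
    -- an action on a tree with amenable edge stabilizers and an unbounded orbit
    (∀ (V : Type) [MulAction G V] (T : SimpleGraph V), T.IsTree →
      (∀ (g : G) (v w : V), T.Adj v w → T.Adj (g • v) (g • w)) →
      (∀ v w : V, T.Adj v w →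
        IsAmenable ((MulAction.stabilizer G v ⊓ MulAction.stabilizer G w : Subgroup G))) →
      ∀ x0 : V, (∀ N : ℕ, ∃ g : G, N ≤ T.dist x0 (g • x0)) →
      ∃ i ≤ 1, Nontrivial (Homol (regHom G) X i)) :=
  ⟨fun _ _ hZ Y hY hnt => main hfree hZ Y hY hnt,
    fun C hC Y hY1 hY2 hY => coset_case hfree C hC Y hY1 hY2 hY,
    fun V _ T hT hadj hst x0 hunb => tree_case hfree V T hT hadj hst x0 hunb⟩

end Pool.Agent.Results.MP_48737f_gt.AmenableSplitting
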